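import Mathlib

set_option autoImplicit false
set_option maxHeartbeats 400000

open Matrix

namespace Pool.Agent.Results.MP_a1df92_al.Neither

section Modules
variable {F M G : Type} [Semiring F] [AddCommMonoid M] [Module F M] [Group G] (ρ : G → M → M)

/-- `U` is an `FH`-submodule for the action `ρ`. -/
def InvR (H : Subgroup G) (U : Submodule F M) : Prop := ∀ g ∈ H, ∀ u ∈ U, ρ g u ∈ U

/-- `U` is an irreducible `FH`-submodule. -/
def IrrR (H : Subgroup G) (U : Submodule F M) : Prop :=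
  U ≠ ⊥ ∧ InvR ρ H U ∧ ∀ W, InvR ρ H W → W ≤ U → W = ⊥ ∨ W = U

/-- condition `(*_n)` for the family of modules `L k`. -/
def StarR (L : ℕ → Submodule F M) (H : Subgroup G) (n : ℕ) : Prop :=
  ∀ k, 1 ≤ k → k ≤ n - 1 → ∀ U, U ≤ L k → IrrR ρ ⊤ U → IrrR ρ H U

/-- the `FH`-submodules of `N` form a chain. -/
def UniserialR (H : Subgroup G) (N : Submodule F M) : Prop :=
  ∀ U W, U ≤ N → W ≤ N → InvR ρ H U → InvR ρ H W → U ≤ W ∨ W ≤ U

/-- `N` is a direct sum of irreducible `FH`-submodules. -/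
def CompletelyReducibleR (H : Subgroup G) (N : Submodule F M) : Prop :=
  ∃ S : Set (Submodule F M), (∀ U ∈ S, IrrR ρ H U) ∧ sSupIndep S ∧ sSup S = N

end Modules

/-- the algebra map `T(V) → A` extending a linear map `f : V → A`, applied to `w`. -/
noncomputable def extend {F V A : Type} [CommSemiring F] [AddCommMonoid V] [Module F V]
    [Semiring A] [Algebra F A] (f : V →ₗ[F] A) (w : TensorAlgebra F V) : A :=
  TensorAlgebra.lift F f w

/-- the algebra endomorphism of `T(V)` induced by a linear endomorphism `f` of `V`. -/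
noncomputable def induced {F V : Type} [CommSemiring F] [AddCommMonoid V] [Module F V]
    (f : V →ₗ[F] V) (w : TensorAlgebra F V) : TensorAlgebra F V :=
  extend (TensorAlgebra.ι F ∘ₗ f) w

section Defs
variable (F : Type) [Field F] (d : ℕ)

/-- the tensor algebra `T(V)` of `V = F^d`. -/
abbrev T := TensorAlgebra F (Fin d → F)

/-- the inclusion `V → T(V)`. -/
noncomputable def io (v : Fin d → F) : T F d := TensorAlgebra.ι F v

/-- the commutator bracket of `T(V)`. -/
noncomputable def br (a b : T F d) : T F d := a * b - b * a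

/-- the left-normed brackets `[v₁, …, v_k]`. -/
def B : ℕ → Set (T F d)
  | 0 => ∅
  | 1 => Set.range (io F d)
  | k + 2 => {w | ∃ a ∈ B (k + 1), ∃ v, w = br F d a (io F d v)}

/-- the `k`-th Lie power `L^k V`. -/
noncomputable def L (k : ℕ) : Submodule F (T F d) := Submodule.span F (B F d k)

variable {F d}

/-- the action of `GL(V)` on `T(V)` by algebra automorphisms. -/
noncomputable def act (g : GL (Fin d) F) (w : T F d) : T F d :=
  induced (Matrix.mulVecLin (g : Matrix (Fin d) (Fin d) F)) w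

/-- condition `(*_n)` for the Lie powers of `V`. -/
def Star (H : Subgroup (GL (Fin d) F)) (n : ℕ) : Prop := StarR act (L F d) H n

/-- `L^n V` is a uniserial `FH`-module. -/
def Uniserial (H : Subgroup (GL (Fin d) F)) (n : ℕ) : Prop := UniserialR act H (L F d n)

/-- `L^n V` is a completely reducible `FH`-module. -/
def CompletelyReducible (H : Subgroup (GL (Fin d) F)) (n : ℕ) : Prop :=
  CompletelyReducibleR act H (L F d n)

abbrev Inv (H : Subgroup (GL (Fin d) F)) (U : Submodule F (T F d)) : Prop := InvR act H U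
abbrev Irr (H : Subgroup (GL (Fin d) F)) (U : Submodule F (T F d)) : Prop := IrrR act H U

noncomputable def actV (g : GL (Fin d) F) : (Fin d → F) →ₗ[F] T F d :=
  TensorAlgebra.ι F ∘ₗ Matrix.mulVecLin (g : Matrix (Fin d) (Fin d) F)

end Defs

variable {F : Type} [Field F]

/-! ### the monomial group -/

noncomputable def mk (a b c d : F) (h : a * d - b * c ≠ 0) : GL (Fin 2) F :=
  GeneralLinearGroup.mkOfDetNeZero !![a, b; c, d] (by rwa [det_fin_two_of])

@[simp] theorem mk00 (a b c d : F) (h) : mk a b c d h 0 0 = a := rfl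
@[simp] theorem mk01 (a b c d : F) (h) : mk a b c d h 0 1 = b := rfl
@[simp] theorem mk10 (a b c d : F) (h) : mk a b c d h 1 0 = c := rfl
@[simp] theorem mk11 (a b c d : F) (h) : mk a b c d h 1 1 = d := rfl

theorem mul_ap (g h : GL (Fin 2) F) (i j : Fin 2) :
    (g * h) i j = g i 0 * h 0 j + g i 1 * h 1 j := by
  simp [Matrix.mul_apply, Fin.sum_univ_two]

theorem gext {g h : GL (Fin 2) F} (h1 : g 0 0 = h 0 0) (h2 : g 0 1 = h 0 1) (h3 : g 1 0 = h 1 0)
    (h4 : g 1 1 = h 1 1) : g = h := by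
  ext i j; fin_cases i <;> fin_cases j <;> assumption

theorem gdet (g : GL (Fin 2) F) : g 0 0 * g 1 1 - g 0 1 * g 1 0 ≠ 0 := by
  have := g.det_ne_zero
  rwa [det_fin_two] at this

noncomputable def dg (a d : Fˣ) : GL (Fin 2) F := mk a 0 0 d (by simp)
noncomputable def s : GL (Fin 2) F := mk 0 1 1 0 (by simp)
noncomputable def up (b : F) : GL (Fin 2) F := mk 1 b 0 1 (by simp)

theorem dg_mul (a d a' d' : Fˣ) : dg a d * dg a' d' = dg (a * a') (d * d') :=
  gext (by simp [mul_ap, dg]) (by simp [mul_ap, dg]) (by simp [mul_ap, dg]) (by simp [mul_ap, dg])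

theorem dg_s (a d : Fˣ) : dg a d * s = s * dg d a :=
  gext (by simp [mul_ap, dg, s]) (by simp [mul_ap, dg, s]) (by simp [mul_ap, dg, s])
    (by simp [mul_ap, dg, s])

theorem ss : (s : GL (Fin 2) F) * s = 1 :=
  gext (by simp [mul_ap, s]) (by simp [mul_ap, s]) (by simp [mul_ap, s]) (by simp [mul_ap, s])

theorem dg_one : (dg 1 1 : GL (Fin 2) F) = 1 :=
  gext (by simp [dg]) (by simp [dg]) (by simp [dg]) (by simp [dg])

noncomputable def H : Subgroup (GL (Fin 2) F) where
  carrier := {g | ∃ a d, g = dg a d ∨ g = s * dg a d}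
  one_mem' := ⟨1, 1, Or.inl dg_one.symm⟩
  mul_mem' := by
    rintro _ _ ⟨a, d, rfl | rfl⟩ ⟨a', d', rfl | rfl⟩
    · exact ⟨_, _, Or.inl (dg_mul _ _ _ _)⟩
    · exact ⟨_, _, Or.inr (by rw [← mul_assoc, dg_s, mul_assoc, dg_mul])⟩
    · exact ⟨_, _, Or.inr (by rw [mul_assoc, dg_mul])⟩
    · exact ⟨_, _, Or.inl (by
        rw [mul_assoc, ← mul_assoc (dg a d), dg_s, mul_assoc, dg_mul, ← mul_assoc, ss, one_mul])⟩
  inv_mem' := by
    rintro _ ⟨a, d, rfl | rfl⟩
    · exact ⟨a⁻¹, d⁻¹, Or.inl (by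
        rw [inv_eq_iff_mul_eq_one, dg_mul, mul_inv_cancel, mul_inv_cancel, dg_one])⟩
    · exact ⟨d⁻¹, a⁻¹, Or.inr (by
        rw [inv_eq_iff_mul_eq_one, mul_assoc, ← mul_assoc (dg a d), dg_s, mul_assoc, dg_mul,
          mul_inv_cancel, mul_inv_cancel, dg_one, mul_one, ss])⟩

theorem dgH (a d : Fˣ) : dg a d ∈ H := ⟨a, d, Or.inl rfl⟩
theorem sH : (s : GL (Fin 2) F) ∈ H := ⟨1, 1, Or.inr (by rw [dg_one, mul_one])⟩

theorem diagH (g : GL (Fin 2) F) (h1 : g 0 1 = 0) (h2 : g 1 0 = 0) : g ∈ H := by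
  have := gdet g
  rw [h1, zero_mul, sub_zero] at this
  exact ⟨Units.mk0 _ (left_ne_zero_of_mul this), Units.mk0 _ (right_ne_zero_of_mul this),
    Or.inl (gext rfl h1 h2 rfl)⟩

theorem tri (g : GL (Fin 2) F) (h1 : g 0 1 ≠ 0) (h2 : g 1 0 = 0) :
    ∃ a b c d, g = dg a b * up 1 * dg c d := by
  have := gdet g
  rw [h2, mul_zero, sub_zero] at this
  refine ⟨Units.mk0 _ h1, Units.mk0 _ (right_ne_zero_of_mul this),
    Units.mk0 _ (div_ne_zero (left_ne_zero_of_mul this) h1), 1, gext ?_ ?_ ?_ ?_⟩ <;>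
  simp [mul_ap, dg, up, h2]
  field_simp

theorem coatom [CharP F 2] : IsCoatom (H : Subgroup (GL (Fin 2) F)) := by
  have two : (2 : F) = 0 := CharTwo.two_eq_zero
  constructor
  · intro h
    have : up (1 : F) ∈ H := by rw [h]; trivial
    obtain ⟨a, d, h | h⟩ := this
    · have := congrArg (fun g : GL (Fin 2) F => g 0 1) h
      simp [up, dg] at this
    · have := congrArg (fun g : GL (Fin 2) F => g 0 0) h
      simp [up, dg, s, mul_ap] at this
  · intro K hK
    obtain ⟨g, hgK, hg⟩ := SetLike.exists_of_lt hK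
    have hs : s ∈ K := hK.le sH
    have t1 : ∀ g ∈ K, g 0 1 ≠ 0 → g 1 0 = 0 → up 1 ∈ K := by
      intro g hg h1 h2
      obtain ⟨a, b, c, d, rfl⟩ := tri g h1 h2
      exact (K.mul_mem_cancel_left (hK.le (dgH a b))).1
        ((K.mul_mem_cancel_right (hK.le (dgH c d))).1 hg)
    have t2 : ∀ g ∈ K, g 0 0 = 0 → g 1 1 ≠ 0 → up 1 ∈ K := fun g hg h1 h2 =>
      t1 _ (K.mul_mem hs hg) (by simpa [mul_ap, s] using h2) (by simpa [mul_ap, s] using h1)
    have hu : up 1 ∈ K := by
      by_cases h10 : g 1 0 = 0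
      · exact t1 g hgK (fun h => hg (diagH g h h10)) h10
      by_cases h01 : g 0 1 = 0
      · exact t1 _ (K.mul_mem (K.mul_mem hs hgK) hs) (by simpa [mul_ap, s] using h10)
          (by simpa [mul_ap, s] using h01)
      by_cases h00 : g 0 0 = 0
      · refine t2 g hgK h00 fun h => hg ?_
        exact (H.mul_mem_cancel_left sH).1 (diagH _ (by simpa [mul_ap, s] using h)
          (by simpa [mul_ap, s] using h00))
      by_cases h11 : g 1 1 = 0
      · exact t1 _ (K.mul_mem hgK hs) (by simpa [mul_ap, s] using h00)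
          (by simpa [mul_ap, s] using h11)
      have hd := gdet g
      refine t2 _ (K.mul_mem (K.mul_mem hgK (hK.le (dgH (Units.mk0 _
        (div_ne_zero (mul_ne_zero h01 h10) (mul_ne_zero h00 h00))) 1))) hgK) ?_ ?_
      · simp only [mul_ap, dg, mk00, mk01, mk10, mk11, Units.val_mk0, Units.val_one]
        field_simp
        linear_combination (g 0 1 * g 1 0) * two
      · simp only [mul_ap, dg, mk00, mk01, mk10, mk11, Units.val_mk0, Units.val_one]
        intro h
        field_simp at h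
        apply mul_ne_zero hd hd
        linear_combination h - (g 0 0 * g 1 1 * g 0 1 * g 1 0) * two
    have t3 : ∀ g : GL (Fin 2) F, g 1 0 = 0 → g ∈ K := by
      intro g h2
      by_cases h1 : g 0 1 = 0
      · exact hK.le (diagH g h1 h2)
      · obtain ⟨a, b, c, d, rfl⟩ := tri g h1 h2
        exact K.mul_mem (K.mul_mem (hK.le (dgH a b)) hu) (hK.le (dgH c d))
    rw [eq_top_iff]
    intro g _
    by_cases h : g 1 0 = 0
    · exact t3 g h
    · have := t3 (s * (up (-(g 0 0 / g 1 0)) * g)) (by simp [mul_ap, s, up, h])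
      exact (K.mul_mem_cancel_left (t3 _ rfl)).1 ((K.mul_mem_cancel_left hs).1 this)

/-! ### the action -/

noncomputable def A (g : GL (Fin 2) F) : T F 2 →ₐ[F] T F 2 := TensorAlgebra.lift F (actV g)

theorem act_eq (g : GL (Fin 2) F) (w : T F 2) : act g w = A g w := rfl

theorem A_io (g : GL (Fin 2) F) (v : Fin 2 → F) :
    A g (io F 2 v) = io F 2 ((g : Matrix (Fin 2) (Fin 2) F) *ᵥ v) := by
  simp [A, io, actV]

theorem A_mul (g h : GL (Fin 2) F) (w : T F 2) : A (g * h) w = A g (A h w) := by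
  have : A (g * h) = (A g).comp (A h) := by
    apply TensorAlgebra.hom_ext
    refine LinearMap.ext fun v => ?_
    exact (A_io _ v).trans (by
      rw [Units.val_mul, ← mulVec_mulVec, ← A_io, ← A_io]; rfl)
  rw [this]; rfl

theorem A_one (w : T F 2) : A 1 w = w := by
  have : A (1 : GL (Fin 2) F) = AlgHom.id F _ := by
    apply TensorAlgebra.hom_ext
    refine LinearMap.ext fun v => ?_
    exact (A_io _ v).trans (by simp [io])
  rw [this]; rfl

theorem A_br (g : GL (Fin 2) F) (a b : T F 2) : A g (br F 2 a b) = br F 2 (A g a) (A g b) := by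
  simp [br]

theorem br_add (a b c : T F 2) : br F 2 a (b + c) = br F 2 a b + br F 2 a c := by
  simp only [br]; noncomm_ring
theorem add_br (a b c : T F 2) : br F 2 (a + b) c = br F 2 a c + br F 2 b c := by
  simp only [br]; noncomm_ring
theorem br_smul (r : F) (a b : T F 2) : br F 2 a (r • b) = r • br F 2 a b := by
  simp [br, smul_sub]
theorem smul_br (r : F) (a b : T F 2) : br F 2 (r • a) b = r • br F 2 a b := by
  simp [br, smul_sub]
theorem br_self (a : T F 2) : br F 2 a a = 0 := sub_self _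

noncomputable def x : T F 2 := io F 2 (Pi.single 0 1)
noncomputable def y : T F 2 := io F 2 (Pi.single 1 1)
noncomputable def c : T F 2 := br F 2 x y
noncomputable def cx : T F 2 := br F 2 c x
noncomputable def cy : T F 2 := br F 2 c y
noncomputable def cxx : T F 2 := br F 2 cx x
noncomputable def cxy : T F 2 := br F 2 cx y
noncomputable def cyy : T F 2 := br F 2 cy y
noncomputable def u : T F 2 := br F 2 cxx x
noncomputable def p : T F 2 := br F 2 cxx y
noncomputable def q : T F 2 := br F 2 cyy x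
noncomputable def v : T F 2 := br F 2 cyy y

theorem io_eq (w : Fin 2 → F) : io F 2 w = w 0 • x + w 1 • y := by
  simp only [x, y, io, ← map_smul, ← map_add]
  congr 1; funext i; fin_cases i <;> simp

theorem yx : br F 2 y x = (-1 : F) • c := by simp [c, br]
theorem cyx : br F 2 cy x = cxy := by simp only [cy, cxy, cx, c, br]; noncomm_ring

theorem A_x (g : GL (Fin 2) F) : A g x = g 0 0 • x + g 1 0 • y := by
  rw [x, A_io, io_eq]; simp [x]
theorem A_y (g : GL (Fin 2) F) : A g y = g 0 1 • x + g 1 1 • y := by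
  rw [y, A_io, io_eq]; simp [y]

theorem b1 (a b a' b' : F) : br F 2 (a • x + b • y) (a' • x + b' • y) = (a * b' - b * a') • c := by
  simp only [br_add, add_br, br_smul, smul_br, br_self, yx, ← c.eq_1]; module
theorem b2 (a a' b' : F) : br F 2 (a • c) (a' • x + b' • y) = (a * a') • cx + (a * b') • cy := by
  simp only [br_add, br_smul, smul_br, ← cx.eq_1, ← cy.eq_1]; module
theorem b3 (a b a' b' : F) : br F 2 (a • cx + b • cy) (a' • x + b' • y) =
    (a * a') • cxx + (a * b' + b * a') • cxy + (b * b') • cyy := by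
  simp only [br_add, add_br, br_smul, smul_br, cyx, ← cxx.eq_1, ← cxy.eq_1, ← cyy.eq_1]; module
theorem b4 (a b a' b' : F) : br F 2 (a • cxx + (0 : F) • cxy + b • cyy) (a' • x + b' • y) =
    (a * a') • u + (a * b') • p + (b * a') • q + (b * b') • v := by
  simp only [zero_smul, add_zero, br_add, add_br, br_smul, smul_br, ← u.eq_1, ← p.eq_1, ← q.eq_1,
    ← v.eq_1]; module

noncomputable def dt (g : GL (Fin 2) F) : F := g 0 0 * g 1 1 - g 1 0 * g 0 1

theorem A_c (g : GL (Fin 2) F) : A g c = dt g • c := by rw [c, A_br, A_x, A_y, b1]; rfl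
theorem A_cx (g : GL (Fin 2) F) : A g cx = (dt g * g 0 0) • cx + (dt g * g 1 0) • cy := by
  refine (A_br g _ _).trans ?_; rw [A_c, A_x, b2]
theorem A_cy (g : GL (Fin 2) F) : A g cy = (dt g * g 0 1) • cx + (dt g * g 1 1) • cy := by
  refine (A_br g _ _).trans ?_; rw [A_c, A_y, b2]
theorem A_cxy (g : GL (Fin 2) F) : A g cxy = (dt g * g 0 0 * g 0 1) • cxx +
    (dt g * g 0 0 * g 1 1 + dt g * g 1 0 * g 0 1) • cxy + (dt g * g 1 0 * g 1 1) • cyy := by
  refine (A_br g _ _).trans ?_; rw [A_cx, A_y, b3]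

variable [CharP F 2]

theorem two : (2 : F) = 0 := CharTwo.two_eq_zero

theorem A_cxx (g : GL (Fin 2) F) : A g cxx = (dt g * g 0 0 * g 0 0) • cxx +
    (0 : F) • cxy + (dt g * g 1 0 * g 1 0) • cyy := by
  refine (A_br g _ _).trans ?_; rw [A_cx, A_x, b3]
  congr 3; linear_combination (dt g * g 0 0 * g 1 0) * two (F := F)
theorem A_cyy (g : GL (Fin 2) F) : A g cyy = (dt g * g 0 1 * g 0 1) • cxx +
    (0 : F) • cxy + (dt g * g 1 1 * g 1 1) • cyy := by
  refine (A_br g _ _).trans ?_; rw [A_cy, A_y, b3]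
  congr 3; linear_combination (dt g * g 0 1 * g 1 1) * two (F := F)
theorem A_u (g : GL (Fin 2) F) : A g u = (dt g * g 0 0 * g 0 0 * g 0 0) • u +
    (dt g * g 0 0 * g 0 0 * g 1 0) • p + (dt g * g 1 0 * g 1 0 * g 0 0) • q +
    (dt g * g 1 0 * g 1 0 * g 1 0) • v := by refine (A_br g _ _).trans ?_; rw [A_cxx, A_x, b4]
theorem A_p (g : GL (Fin 2) F) : A g p = (dt g * g 0 0 * g 0 0 * g 0 1) • u +
    (dt g * g 0 0 * g 0 0 * g 1 1) • p + (dt g * g 1 0 * g 1 0 * g 0 1) • q +
    (dt g * g 1 0 * g 1 0 * g 1 1) • v := by refine (A_br g _ _).trans ?_; rw [A_cxx, A_y, b4]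
theorem A_q (g : GL (Fin 2) F) : A g q = (dt g * g 0 1 * g 0 1 * g 0 0) • u +
    (dt g * g 0 1 * g 0 1 * g 1 0) • p + (dt g * g 1 1 * g 1 1 * g 0 0) • q +
    (dt g * g 1 1 * g 1 1 * g 1 0) • v := by refine (A_br g _ _).trans ?_; rw [A_cyy, A_x, b4]
theorem A_v (g : GL (Fin 2) F) : A g v = (dt g * g 0 1 * g 0 1 * g 0 1) • u +
    (dt g * g 0 1 * g 0 1 * g 1 1) • p + (dt g * g 1 1 * g 1 1 * g 0 1) • q +
    (dt g * g 1 1 * g 1 1 * g 1 1) • v := by refine (A_br g _ _).trans ?_; rw [A_cyy, A_y, b4]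

omit [CharP F 2] in
theorem uv_ne : (u : T F 2) + v ≠ 0 := by
  let f : (Fin 2 → F) →ₗ[F] Matrix (Fin 2) (Fin 2) F :=
    { toFun := fun w => !![w 0, w 1; 0, 0]
      map_add' := fun a b => by ext i j; fin_cases i <;> fin_cases j <;> simp
      map_smul' := fun a b => by ext i j; fin_cases i <;> fin_cases j <;> simp }
  intro h
  have := congrArg (fun w => TensorAlgebra.lift F f w 0 1) h
  simp [u, v, cxx, cyy, cx, cy, c, x, y, br, io, f] at this

/-! ### Lie powers -/

omit [CharP F 2] in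
theorem L1 : L F 2 1 ≤ Submodule.span F {x, y} := by
  rw [L, Submodule.span_le]
  rintro _ ⟨w, rfl⟩
  exact Submodule.mem_span_pair.2 ⟨_, _, (io_eq w).symm⟩

omit [CharP F 2] in
theorem L2 : L F 2 2 ≤ Submodule.span F {c} := by
  rw [L, Submodule.span_le]
  rintro _ ⟨a, ha, w, rfl⟩
  obtain ⟨α, β, rfl⟩ := Submodule.mem_span_pair.1 (L1 (Submodule.subset_span ha))
  exact Submodule.mem_span_singleton.2 ⟨_, by rw [io_eq, b1]⟩

omit [CharP F 2] in
theorem L3 : L F 2 3 ≤ Submodule.span F {cx, cy} := by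
  rw [L, Submodule.span_le]
  rintro _ ⟨a, ha, w, rfl⟩
  obtain ⟨α, rfl⟩ := Submodule.mem_span_singleton.1 (L2 (Submodule.subset_span ha))
  exact Submodule.mem_span_pair.2 ⟨_, _, by rw [io_eq, b2]⟩

omit [CharP F 2] in
theorem L4 : L F 2 4 ≤ Submodule.span F {cxx, cxy, cyy} := by
  rw [L, Submodule.span_le]
  rintro _ ⟨a, ha, w, rfl⟩
  obtain ⟨α, β, rfl⟩ := Submodule.mem_span_pair.1 (L3 (Submodule.subset_span ha))
  exact Submodule.mem_span_triple.2 ⟨_, _, _, by rw [io_eq, b3]⟩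

omit [CharP F 2] in
theorem L5 : (u : T F 2) ∈ L F 2 5 ∧ (p : T F 2) ∈ L F 2 5 ∧ (q : T F 2) ∈ L F 2 5 ∧
    (v : T F 2) ∈ L F 2 5 := by
  have h2 : (c : T F 2) ∈ B F 2 2 := ⟨x, ⟨_, rfl⟩, _, rfl⟩
  have h4 : (cxx : T F 2) ∈ B F 2 4 := ⟨cx, ⟨c, h2, _, rfl⟩, _, rfl⟩
  have h4' : (cyy : T F 2) ∈ B F 2 4 := ⟨cy, ⟨c, h2, _, rfl⟩, _, rfl⟩
  exact ⟨Submodule.subset_span ⟨_, h4, _, rfl⟩, Submodule.subset_span ⟨_, h4, _, rfl⟩,
    Submodule.subset_span ⟨_, h4', _, rfl⟩, Submodule.subset_span ⟨_, h4', _, rfl⟩⟩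

omit [CharP F 2] in
theorem inv_span (K : Subgroup (GL (Fin 2) F)) (S : Set (T F 2))
    (h : ∀ g ∈ K, ∀ w ∈ S, A g w ∈ Submodule.span F S) : Inv K (Submodule.span F S) := by
  intro g hg w hw
  exact (Submodule.span_le (p := (Submodule.span F S).comap (A g).toLinearMap)).2 (h g hg) hw

omit [CharP F 2] in
theorem of_smul {U : Submodule F (T F 2)} {a : F} {w : T F 2} (h : a • w ∈ U) (ha : a ≠ 0) :
    w ∈ U := (U.smul_mem_iff ha).1 h

variable (ω : Fˣ) (hω : (ω : F) ^ 2 + ω + 1 = 0)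
include hω

theorem sep {U : Submodule F (T F 2)} (hU : ∀ w ∈ U, A (dg ω 1) w ∈ U) (w0 w1 w2 : T F 2)
    (h0 : A (dg ω 1) w0 = w0) (h1 : A (dg ω 1) w1 = (ω : F) • w1)
    (h2 : A (dg ω 1) w2 = (ω : F) ^ 2 • w2) (hw : w0 + w1 + w2 ∈ U) :
    w0 ∈ U ∧ w1 ∈ U ∧ w2 ∈ U := by
  have k1 := hU _ hw
  simp only [map_add, h0, h1, h2] at k1
  have k2 := hU _ k1
  simp only [map_add, map_smul, h0, h1, h2] at k2
  have t := two (F := F)
  have a0 : w0 ∈ U := by
    convert U.add_mem (U.add_mem hw k1) k2 using 1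
    match_scalars
    · linear_combination -t
    · linear_combination -hω
    · linear_combination (-(ω : F) ^ 2 + ω - 1) * hω
  have a1 : w1 ∈ U := by
    convert U.add_mem (U.add_mem hw (U.smul_mem ((ω : F) ^ 2) k1)) (U.smul_mem (ω : F) k2) using 1
    match_scalars
    · linear_combination (-(ω : F) ^ 3) * t
    · linear_combination -hω
    · linear_combination (-(ω : F) ^ 3 + ω - 1) * hω
  refine ⟨a0, a1, ?_⟩
  convert U.sub_mem (U.sub_mem hw a1) a0 using 1
  abel

omit [CharP F 2] in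
theorem w3 : (ω : F) ^ 3 = 1 := by linear_combination ((ω : F) - 1) * hω

theorem e_cxx (a : F) : A (dg ω 1) (a • cxx) = a • cxx := by
  rw [map_smul, A_cxx]; simp only [dt, dg, mk00, mk01, mk10, mk11, Units.val_one]
  match_scalars
  · linear_combination a * w3 ω hω
  · ring
  · ring
theorem e_p (a : F) : A (dg ω 1) (a • p) = a • p := by
  rw [map_smul, A_p]; simp only [dt, dg, mk00, mk01, mk10, mk11, Units.val_one]
  match_scalars
  · ring
  · linear_combination a * w3 ω hω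
  · ring
  · ring
theorem e_uv (a b : F) : A (dg ω 1) (a • u + b • v) = (ω : F) • (a • u + b • v) := by
  rw [map_add, map_smul, map_smul, A_u, A_v]
  simp only [dt, dg, mk00, mk01, mk10, mk11, Units.val_one]
  match_scalars
  · linear_combination a * ω * w3 ω hω
  · ring
  · ring
  · ring
omit hω in
theorem e_q (a : F) : A (dg ω 1) (a • q) = (ω : F) ^ 2 • (a • q) := by
  rw [map_smul, A_q]; simp only [dt, dg, mk00, mk01, mk10, mk11, Units.val_one]
  match_scalars <;> ring

theorem sep5 {U : Submodule F (T F 2)} (hU : ∀ w ∈ U, A (dg ω 1) w ∈ U) (a b c d : F)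
    (hw : a • u + b • p + c • q + d • v ∈ U) : b • p ∈ U ∧ a • u + d • v ∈ U ∧ c • q ∈ U :=
  sep ω hω hU _ _ _ (e_p ω hω b) (e_uv ω hω a d) (e_q ω c) (by convert hw using 1; abel)

omit hω in
theorem s_facts : A s (u : T F 2) = v ∧ A s (v : T F 2) = u ∧ A s (p : T F 2) = q ∧
    A s (q : T F 2) = p ∧ A s (cxx : T F 2) = cyy ∧ A s (cyy : T F 2) = cxx ∧
    A s (cx : T F 2) = cy ∧ A s (cy : T F 2) = cx ∧ A s (x : T F 2) = y ∧ A s (y : T F 2) = x := by
  simp [A_u, A_v, A_p, A_q, A_cxx, A_cyy, A_cx, A_cy, A_x, A_y, dt, s, CharTwo.neg_eq]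

omit hω in
theorem t_facts : A (up 1) (u : T F 2) = u ∧ A (up 1) (v : T F 2) = u + p + q + v ∧
    A (up 1) (p : T F 2) = u + p ∧ A (up 1) (cxy : T F 2) = cxx + cxy := by
  simp [A_u, A_v, A_p, A_cxy, dt, up]

omit hω in
theorem u_ne : (u : T F 2) ≠ 0 := fun h => uv_ne (F := F) (by
  rw [← (s_facts (F := F)).1, h]; simp)

omit hω in
theorem p_ne : (p : T F 2) ≠ 0 := fun h => u_ne (F := F) (by
  have := (t_facts (F := F)).2.2.1
  rw [h, map_zero, add_zero] at this
  exact this.symm)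

omit hω in
theorem cxx_ne : (cxx : T F 2) ≠ 0 := fun h => u_ne (F := F) (by rw [u, h]; simp [br])

omit hω [CharP F 2] in
theorem irr_of (U : Submodule F (T F 2)) (hU : Irr ⊤ U)
    (h : ∀ W, Inv H W → W ≤ U → W ≠ ⊥ → U ≤ W) : Irr H U :=
  ⟨hU.1, fun g _ => hU.2.1 g trivial, fun W hW hle => by
    by_cases h0 : W = ⊥
    · exact Or.inl h0
    · exact Or.inr (le_antisymm hle (h W hW hle h0))⟩

omit hω [CharP F 2] in
theorem pair_full (a b : T F 2) (sa : A s a = b) (sb : A s b = a) (W : Submodule F (T F 2))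
    (hW : Inv H W) (h : ∀ α β : F, α • a + β • b ∈ W → α • a ∈ W ∧ β • b ∈ W)
    (hle : W ≤ Submodule.span F {a, b}) (h0 : W ≠ ⊥) : Submodule.span F {a, b} ≤ W := by
  obtain ⟨w, hw, hw0⟩ := (Submodule.ne_bot_iff W).1 h0
  obtain ⟨α, β, rfl⟩ := Submodule.mem_span_pair.1 (hle hw)
  obtain ⟨h1, h2⟩ := h α β hw
  have ha : a ∈ W := by
    by_cases hα : α = 0
    · have hβ : β ≠ 0 := fun hβ => hw0 (by simp [hα, hβ])
      exact sb ▸ hW s sH _ (of_smul h2 hβ)
    · exact of_smul h1 hα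
  rw [Submodule.span_le]
  rintro _ (rfl | rfl)
  · exact ha
  · exact sa ▸ hW s sH _ ha

theorem star5 : Star (H : Subgroup (GL (Fin 2) F)) 5 := by
  obtain ⟨-, -, -, -, s5, s6, s7, s8, s9, s10⟩ := s_facts (F := F)
  intro k h1 h2 U hL hU
  refine irr_of U hU fun W hW hle h0 => ?_
  have hW' : ∀ w ∈ W, A (dg ω 1) w ∈ W := hW _ (dgH ω 1)
  obtain rfl | rfl | rfl | rfl : k = 1 ∨ k = 2 ∨ k = 3 ∨ k = 4 := by omega
  · refine (hL.trans L1).trans (pair_full x y s9 s10 W hW (fun α β h => ?_)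
      (hle.trans (hL.trans L1)) h0)
    have := sep ω hω hW' (β • y) (α • x) 0 (by simp [A_y, dg]) (by simp [A_x, dg, smul_comm α])
      (by simp) (by convert h using 1; abel)
    exact ⟨this.2.1, this.1⟩
  · obtain ⟨w, hw, hw0⟩ := (Submodule.ne_bot_iff W).1 h0
    obtain ⟨α, rfl⟩ := Submodule.mem_span_singleton.1 (L2 (hL (hle hw)))
    refine (hL.trans L2).trans ?_
    rw [Submodule.span_singleton_le_iff_mem]
    exact of_smul hw (left_ne_zero_of_smul hw0)
  · refine (hL.trans L3).trans (pair_full cx cy s7 s8 W hW (fun α β h => ?_)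
      (hle.trans (hL.trans L3)) h0)
    have := sep ω hω hW' 0 (β • cy) (α • cx) (by simp) (by simp [A_cy, dg, dt, smul_comm β])
      (by simp [A_cx, dg, dt, smul_comm α, pow_two]) (by convert h using 1; abel)
    exact ⟨this.2.2, this.2.1⟩
  · have sep4 : ∀ {V : Submodule F (T F 2)}, (∀ w ∈ V, A (dg ω 1) w ∈ V) → ∀ α β γ : F,
        α • cxx + β • cxy + γ • cyy ∈ V → α • cxx ∈ V ∧ γ • cyy ∈ V ∧ β • cxy ∈ V :=
      fun hV α β γ h => sep ω hω hV _ _ _ (e_cxx ω hω α) (by simp [A_cyy, dg, dt, smul_comm γ])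
        (by simp [A_cxy, dg, dt, smul_comm β, pow_two]) (by convert h using 1; abel)
    have hP : Inv ⊤ (Submodule.span F {(cxx : T F 2), cyy}) := inv_span _ _ (by
      rintro g - _ (rfl | rfl)
      · rw [A_cxx, zero_smul, add_zero]; exact Submodule.mem_span_pair.2 ⟨_, _, rfl⟩
      · rw [A_cyy, zero_smul, add_zero]; exact Submodule.mem_span_pair.2 ⟨_, _, rfl⟩)
    have hPU : cxx ∈ U → Submodule.span F {(cxx : T F 2), cyy} = U := by
      intro h
      refine (hU.2.2 _ hP ?_).resolve_left fun hb => cxx_ne (F := F) ?_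
      · rw [Submodule.span_le]
        rintro _ (rfl | rfl)
        · exact h
        · exact s5 ▸ hU.2.1 s trivial _ h
      · exact (Submodule.eq_bot_iff _).1 hb _ (Submodule.subset_span (Or.inl rfl))
    obtain ⟨w, hw, hw0⟩ := (Submodule.ne_bot_iff W).1 h0
    obtain ⟨α, β, γ, rfl⟩ := Submodule.mem_span_triple.1 (L4 (hL (hle hw)))
    obtain ⟨k1, k2, k3⟩ := sep4 hW' α β γ hw
    have hβ : β • (cxy : T F 2) = 0 := by
      by_contra hb
      have m1 : cxy ∈ U := hle (of_smul k3 (left_ne_zero_of_smul hb))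
      have m2 := U.sub_mem (hU.2.1 (up 1) trivial _ m1) m1
      rw [act_eq, t_facts.2.2.2, add_sub_cancel_right] at m2
      rw [← hPU m2] at m1
      obtain ⟨a, b, e⟩ := Submodule.mem_span_pair.1 m1
      have := (sep4 (V := ⊥) (by simp) a (-1) b (by
        rw [← e, Submodule.mem_bot]; module)).2.2
      apply hb
      rw [Submodule.mem_bot, neg_smul, one_smul, neg_eq_zero] at this
      rw [this, smul_zero]
    have ha : cxx ∈ W := by
      by_cases hα : α = 0
      · have hγ : γ ≠ 0 := fun hγ => hw0 (by simp [hα, hβ, hγ])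
        exact s6 ▸ hW s sH _ (of_smul k2 hγ)
      · exact of_smul k1 hα
    rw [← hPU (hle ha), Submodule.span_le]
    rintro _ (rfl | rfl)
    · exact ha
    · exact s5 ▸ hW s sH _ ha

omit hω [CharP F 2] in
theorem mem4 (w : T F 2) : w ∈ Submodule.span F {(u : T F 2), p, q, v} ↔
    ∃ a b c d : F, w = a • u + b • p + c • q + d • v := by
  rw [Submodule.mem_span_insert]
  constructor
  · rintro ⟨a, z, hz, rfl⟩
    obtain ⟨b, c, d, rfl⟩ := Submodule.mem_span_triple.1 hz
    exact ⟨a, b, c, d, by abel⟩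
  · rintro ⟨a, b, c, d, rfl⟩
    exact ⟨a, _, Submodule.mem_span_triple.2 ⟨b, c, d, rfl⟩, by abel⟩

omit hω in
theorem invP : Inv H (Submodule.span F {(p : T F 2), q}) := inv_span _ _ (by
  rintro _ ⟨a, d, rfl | rfl⟩ _ (rfl | rfl)
  · exact Submodule.mem_span_pair.2 ⟨_, 0, by simp [A_p, dg]; rfl⟩
  · exact Submodule.mem_span_pair.2 ⟨0, _, by simp [A_q, dg]; rfl⟩
  · exact Submodule.mem_span_pair.2 ⟨0, _, by simp [A_p, dg, s, mul_ap]; rfl⟩
  · exact Submodule.mem_span_pair.2 ⟨_, 0, by simp [A_q, dg, s, mul_ap]; rfl⟩)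

omit hω in
theorem invQ : Inv H (Submodule.span F {(u : T F 2), v}) := inv_span _ _ (by
  rintro _ ⟨a, d, rfl | rfl⟩ _ (rfl | rfl)
  · exact Submodule.mem_span_pair.2 ⟨_, 0, by simp [A_u, dg]; rfl⟩
  · exact Submodule.mem_span_pair.2 ⟨0, _, by simp [A_v, dg]; rfl⟩
  · exact Submodule.mem_span_pair.2 ⟨0, _, by simp [A_u, dg, s, mul_ap]; rfl⟩
  · exact Submodule.mem_span_pair.2 ⟨_, 0, by simp [A_v, dg, s, mul_ap]; rfl⟩)

theorem u_notP : (u : T F 2) ∉ Submodule.span F {(p : T F 2), q} := by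
  intro h
  obtain ⟨a, b, e⟩ := Submodule.mem_span_pair.1 h
  have := (sep5 ω hω (U := ⊥) (by simp) (-1) a b 0 (by
    rw [← e, Submodule.mem_bot]; module)).2.1
  exact u_ne (F := F) (by simpa using this)

theorem p_notQ : (p : T F 2) ∉ Submodule.span F {(u : T F 2), v} := by
  intro h
  obtain ⟨a, b, e⟩ := Submodule.mem_span_pair.1 h
  have := (sep5 ω hω (U := ⊥) (by simp) a (-1) 0 b (by
    rw [← e, Submodule.mem_bot]; module)).1
  exact p_ne (F := F) (by simpa using this)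

theorem not_star6 : ¬ Star (H : Subgroup (GL (Fin 2) F)) 6 := by
  obtain ⟨s1, s2, s3, s4, -⟩ := s_facts (F := F)
  obtain ⟨t1, t2, t3, -⟩ := t_facts (F := F)
  intro h
  have hu : u ∈ Submodule.span F {(u : T F 2), p, q, v} := Submodule.subset_span (by simp)
  have hirr : Irr ⊤ (Submodule.span F {(u : T F 2), p, q, v}) := by
    refine ⟨fun hb => u_ne ((Submodule.eq_bot_iff _).1 hb _ hu), inv_span _ _ ?_, ?_⟩
    · rintro g - _ (rfl | rfl | rfl | rfl)
      · exact (mem4 _).2 ⟨_, _, _, _, A_u g⟩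
      · exact (mem4 _).2 ⟨_, _, _, _, A_p g⟩
      · exact (mem4 _).2 ⟨_, _, _, _, A_q g⟩
      · exact (mem4 _).2 ⟨_, _, _, _, A_v g⟩
    · intro W hW hle
      by_cases h0 : W = ⊥
      · exact Or.inl h0
      right
      have hW' : ∀ w ∈ W, A (dg ω 1) w ∈ W := hW _ trivial
      have pu : p ∈ W → u ∈ W := fun hp => by
        have := W.sub_mem (hW (up 1) trivial _ hp) hp
        rwa [act_eq, t3, add_sub_cancel_right] at this
      have mu : u ∈ W := by
        obtain ⟨w, hw, hw0⟩ := (Submodule.ne_bot_iff W).1 h0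
        obtain ⟨a, b, c, d, rfl⟩ := (mem4 w).1 (hle hw)
        obtain ⟨k1, k2, k3⟩ := sep5 ω hω hW' a b c d hw
        by_cases hb : b = 0
        · by_cases hc : c = 0
          · by_cases hd : d = 0
            · have ha : a ≠ 0 := fun ha => hw0 (by simp [ha, hb, hc, hd])
              exact of_smul (by simpa [hd] using k2) ha
            · have := W.sub_mem (hW (up 1) trivial _ k2) k2
              rw [act_eq, map_add, map_smul, map_smul, t1, t2] at this
              exact pu (of_smul (sep5 ω hω hW' d d d 0 (by convert this using 1; module)).1 hd)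
          · exact pu (s4 ▸ hW s trivial _ (of_smul k3 hc))
        · exact pu (of_smul k1 hb)
      have mv : v ∈ W := s1 ▸ hW s trivial _ mu
      have mp : p ∈ W := by
        have := hW (up 1) trivial _ mv
        rw [act_eq, t2] at this
        simpa using (sep5 ω hω hW' 1 1 1 1 (by simpa using this)).1
      have mq : q ∈ W := s3 ▸ hW s trivial _ mp
      refine le_antisymm hle ?_
      rw [Submodule.span_le]
      rintro _ (rfl | rfl | rfl | rfl) <;> assumption
  have hL : Submodule.span F {(u : T F 2), p, q, v} ≤ L F 2 5 := by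
    obtain ⟨l1, l2, l3, l4⟩ := L5 (F := F)
    rw [Submodule.span_le]
    rintro _ (rfl | rfl | rfl | rfl) <;> assumption
  rcases (h 5 (by norm_num) (by norm_num) _ hL hirr).2.2 _ invP
    (Submodule.span_mono (by simp [Set.insert_subset_iff])) with e | e
  · exact p_ne ((Submodule.eq_bot_iff _).1 e _ (Submodule.subset_span (Or.inl rfl)))
  · exact u_notP ω hω (e ▸ hu)

theorem not_uni : ¬ Uniserial (H : Subgroup (GL (Fin 2) F)) 5 := by
  intro h
  obtain ⟨l1, l2, l3, l4⟩ := L5 (F := F)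
  rcases h _ _ (Submodule.span_le.2 (by rintro _ (rfl | rfl) <;> assumption))
    (Submodule.span_le.2 (by rintro _ (rfl | rfl) <;> assumption)) invP invQ with e | e
  · exact p_notQ ω hω (e (Submodule.subset_span (Or.inl rfl)))
  · exact u_notP ω hω (e (Submodule.subset_span (Or.inl rfl)))

omit hω

noncomputable def pr [Fintype Fˣ] : T F 2 →ₗ[F] T F 2 :=
  ∑ e : Fˣ × Fˣ, (((e.1 * e.2)⁻¹ : Fˣ) : F) • (A (dg e.1 e.2)).toLinearMap

omit [CharP F 2] in
theorem pr_apply [Fintype Fˣ] (w : T F 2) :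
    pr w = ∑ e : Fˣ × Fˣ, (((e.1 * e.2)⁻¹ : Fˣ) : F) • A (dg e.1 e.2) w := by
  simp [pr, LinearMap.sum_apply]

omit [CharP F 2] in
theorem dg_pr [Fintype Fˣ] (a d : Fˣ) (w : T F 2) :
    A (dg a d) (pr w) = ((a * d : Fˣ) : F) • pr w := by
  rw [pr_apply, map_sum, Finset.smul_sum, ← Equiv.sum_comp (Equiv.mulLeft (a, d))
    (fun e : Fˣ × Fˣ => ((a * d : Fˣ) : F) • (((e.1 * e.2)⁻¹ : Fˣ) : F) • A (dg e.1 e.2) w)]
  refine Finset.sum_congr rfl fun e _ => ?_
  rw [map_smul, ← A_mul, dg_mul, smul_smul, ← Units.val_mul]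
  simp only [Equiv.coe_mulLeft, Prod.fst_mul, Prod.snd_mul]
  congr 2
  rw [mul_mul_mul_comm, mul_inv (a * d), mul_inv_cancel_left]

theorem not_cr [Fintype Fˣ] (hc : Fintype.card Fˣ = 3) :
    ¬ CompletelyReducible (H : Subgroup (GL (Fin 2) F)) 5 := by
  rintro ⟨S, hS, -, hsup⟩
  let φ : T F 2 →ₗ[F] T F 2 := pr + (A s).toLinearMap ∘ₗ pr
  have φe : ∀ w, φ w = pr w + A s (pr w) := fun w => rfl
  have hs : ∀ w, A s (φ w) = φ w := fun w => by
    rw [φe, map_add, ← A_mul, ss, A_one, add_comm]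
  have hd : ∀ a d w, A (dg a d) (φ w) = ((a * d : Fˣ) : F) • φ w := fun a d w => by
    rw [φe, map_add, ← A_mul, dg_s, A_mul, dg_pr, dg_pr, map_smul, mul_comm d, smul_add]
  have h3 : ∀ a : Fˣ, (a : F) ^ 3 = 1 := fun a => by
    rw [← Units.val_pow_eq_pow_val, ← hc, pow_card_eq_one, Units.val_one]
  have h9 : ∀ w : T F 2, ∑ _e : Fˣ × Fˣ, w = w := fun w => by
    rw [Finset.sum_const, Finset.card_univ, Fintype.card_prod, hc, ← Nat.cast_smul_eq_nsmul F]
    have : ((3 * 3 : ℕ) : F) = 1 := by push_cast; linear_combination 4 * two (F := F)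
    rw [this, one_smul]
  have fix : ∀ w : T F 2, (∀ a d, A (dg a d) w = ((a * d : Fˣ) : F) • w) → pr w = w := by
    intro w hw
    rw [pr_apply]
    simp only [hw, smul_smul, Units.inv_mul, one_smul, h9]
  have hker : L F 2 5 ≤ LinearMap.ker φ := by
    rw [← hsup]
    refine sSup_le fun U hU w hw => ?_
    obtain ⟨-, hI, hm⟩ := hS U hU
    have h1 : pr w ∈ U := by
      rw [pr_apply]
      exact U.sum_mem fun e _ => U.smul_mem _ (hI _ (dgH _ _) _ hw)
    have h2 : φ w ∈ U := U.add_mem h1 (hI _ sH _ h1)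
    have hinv : Inv H (Submodule.span F {φ w}) := inv_span _ _ (by
      rintro _ ⟨a, d, rfl | rfl⟩ _ rfl
      · exact Submodule.mem_span_singleton.2 ⟨_, (hd a d w).symm⟩
      · exact Submodule.mem_span_singleton.2 ⟨_, by rw [A_mul, hd, map_smul, hs]⟩)
    rcases hm _ hinv ((Submodule.span_singleton_le_iff_mem _ _).2 h2) with e | e
    · exact Submodule.span_singleton_eq_bot.1 e
    · obtain ⟨κ, hκ⟩ := Submodule.mem_span_singleton.1 (e ▸ hw : w ∈ Submodule.span F {φ w})
      have : φ (φ w) = 0 := by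
        rw [φe (φ w), fix _ (fun a d => hd a d w), hs, ← two_smul F, two, zero_smul]
      rw [LinearMap.mem_ker, ← hκ, map_smul, this, smul_zero]
  have := hker L5.1
  rw [LinearMap.mem_ker, φe, fix u, s_facts.1] at this
  · exact uv_ne this
  · intro a d
    rw [A_u]
    simp only [dt, dg, mk00, mk01, mk10, mk11, Units.val_mul]
    match_scalars
    · linear_combination (a * d : F) * h3 a
    · ring
    · ring
    · ring

omit [CharP F 2] in
theorem result : ∃ (F : Type) (_ : Field F) (_ : Finite F) (d : ℕ) (H : Subgroup (GL (Fin d) F))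
    (n : ℕ), IsCoatom H ∧ 1 ≤ n ∧ Star H n ∧ ¬ Star H (n + 1) ∧
      ¬ CompletelyReducible H n ∧ ¬ Uniserial H n := by
  let K := GaloisField 2 2
  classical
  have : Fintype K := Fintype.ofFinite K
  have hc : Fintype.card Kˣ = 3 := by
    rw [Fintype.card_units, ← Nat.card_eq_fintype_card, GaloisField.card 2 2 two_ne_zero]
    norm_num
  obtain ⟨ω, hω⟩ := Fintype.exists_ne_of_one_lt_card (by omega : 1 < Fintype.card Kˣ) 1
  have h3 : (ω : K) ^ 3 = 1 := by
    rw [← Units.val_pow_eq_pow_val, ← hc, pow_card_eq_one, Units.val_one]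
  have h1 : (ω : K) - 1 ≠ 0 := fun h => hω (Units.ext (sub_eq_zero.1 h))
  have h2 : (ω : K) ^ 2 + ω + 1 = 0 := mul_left_cancel₀ h1 (by linear_combination h3)
  exact ⟨K, inferInstance, inferInstance, 2, H, 5, coatom, by norm_num, star5 ω h2,
    not_star6 ω h2, not_cr hc, not_uni ω h2⟩

end Pool.Agent.Results.MP_a1df92_al.Neither
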